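import Pool.Agent.Helper86.Orl.Low2

/-!
# Orlov's conjecture for varieties with an action of an abelian variety

Let `X` and `Y` be derived equivalent smooth projective complex varieties of dimension `n`. We assume
that the maximal abelian subvariety `A` of `Aut⁰(X)` has dimension `a` and maps onto the Albanese
variety of the group `Aut⁰(X)` (for example if `Aut⁰(X)` is an abelian variety, in particular if `X` is
not uniruled). By Rouquier's theorem (as used by Popa and Schnell) the same is then true for `Y`.

We prove that the (homological) motives of `X` and `Y` are isomorphic, degree by degree, if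
`n ≤ a + 4`; and for all `n` if they are isomorphic in the degrees `2 ≤ d ≤ n - a - 3`. (For `a = 0`
one needs the degrees `1 ≤ d ≤ n - 3`, where the degree `1` is the theorem of Popa and Schnell.) For
instance this is Orlov's conjecture (on the level of homological motives) for `n`-folds with
numerically trivial canonical class and irregularity at least `n - 4`.

Idea of the proof. The classes killed by the contractions with the vector fields from `A` form a ring
`P` which has all the properties of the cohomology of a manifold of dimension `n - a` (hard Lefschetz
and Hodge-Riemann relations for the projection of the Kähler class); the whole cohomology is the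
exterior algebra on `2 a` forms over `P`. An equivalence mixes the contractions and the forms (it
conjugates the one kind of operators to the other), so it does not map `P_X` to `P_Y`. But for almost
all rational `t` the map `D ∘ exp(-t ω_Y) ∘ φ ∘ exp(-t ω_X)` from `P_X` to `P_Y`, where `D` is the
contraction with the fundamental class of the abelian variety acting on `Y`, is an isomorphism, and up
to a positive factor it is an isometry for the Mukai pairings of the rings `P`. The nonvanishing of
the determinant in question follows, at the imaginary value `t = i`, from the Hodge-Riemann relations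
in degree one. So one can apply the results in dimension `n - a` to `P_X` and `P_Y`. A second generic
twist gives an isomorphism of the spaces of the `2 a` forms, and the isomorphism `P_X → P_Y` is
extended to the whole cohomology.
-/

set_option autoImplicit false

open scoped ComplexConjugate
open Module CategoryTheory Pool.Agent.W539.DI Pool.Agent.Helper30.DI Pool.Agent.Q8.OM

namespace Pool.Agent.Results.MP_5c0b30_ag.AbelianSymmetry

section Definitions

variable {n a : ℕ} {X : KRing n}

/-- The multiplication with the class `x`. -/
def mult (x : X.R) : Hom X X := LinearMap.mulLeft ℂ x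

/-- The composition of a list of endomorphisms. -/
def compose (l : List (Hom X X)) : Hom X X := l.foldr Hom.comp (Hom.one X)

/-- The contraction `ι_k` with the vector field `v_k`. -/
def contr (S : AbelianSymmetry X a) (k : Fin a) : Hom X X := S.contr k

/-- The complex conjugate `ι̅_k` of the contraction with `v_k`. -/
noncomputable def contrBar (S : AbelianSymmetry X a) (k : Fin a) : Hom X X :=
  conjMap X (S.contr k)

/-- The contraction with the fundamental class of the abelian variety `A`: the operator
`i^a ι_1 ⋯ ι_a ι̅_1 ⋯ ι̅_a`. -/
noncomputable def orbitMap (S : AbelianSymmetry X a) : Hom X X :=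
  ((compose (List.ofFn (contr S))).comp (compose (List.ofFn (contrBar S)))).smul (Complex.I ^ a)

/-- The class of type `(a, a)` dual to the fundamental class of `A`: the product
`(-i)^a θ̅_a ⋯ θ̅_1 θ_a ⋯ θ_1` of the forms and their complex conjugates. -/
noncomputable def fibreClass (S : AbelianSymmetry X a) : X.R :=
  ((-Complex.I) ^ a) • ((List.ofFn fun k => X.bar (S.form k)).reverse.prod *
    (List.ofFn S.form).reverse.prod)

/-- `g` is the product of two correspondences `b`, `f` and the (infinitesimal) action of `A`: the map
`x ↦ ∑_k b(θ_k) f(ι_k x) + b(θ̅_k) f(ι̅_k x)`. -/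
def IsActionProduct {Y : KRing n} (S : AbelianSymmetry X a) (b f g : Hom X Y) : Prop :=
  ∀ x, g.app x = ∑ k, (b.app (S.form k) * f.app ((contr S k).app x) +
    b.app (X.bar (S.form k)) * f.app ((contrBar S k).app x))

/-- `z` is the operator on the cohomology given by an element of the Lie algebra of
`Aut⁰(X) × Pic⁰(X)`: the sum of the contraction with a vector field from the Lie algebra of `A` and of
the multiplication with a class of type `(0, 1)`. -/
def FromLieAlgebra (S : AbelianSymmetry X a) (z : Hom X X) : Prop :=
  ∃ (c : Fin a → ℂ) (β : X.R), β ∈ X.H (0, 1) ∧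
    ∀ x, z.app x = ∑ k, c k • (contr S k).app x + β * x

end Definitions

variable {n : ℕ} {ι : Type}

/-- Abelian varieties `A i` of dimension `a` act on the varieties `X i` of a class of correspondences
`T` (algebraic cycles modulo homological equivalence if the standard conjecture of Lefschetz type holds
for all the `X i`; motivated cycles; or all morphisms of Hodge structures). All the properties below
hold in these three cases. -/
structure Action (T : Correspondences n ι) (a : ℕ) where
  /-- the contractions `ι_k` with a basis `v_k` of the Lie algebra of `A i`, and one-forms `θ_k` on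
  `X i` with `θ_k (v_l) = δ_{kl}` -/
  sym : ∀ i, AbelianSymmetry (T.X i) a
  /-- the forms are chosen as linear combinations of the contractions `ι̅_l ω` of the Kähler class -/
  adapted : ∀ i k, (contrBar (sym i) k).app (T.X i).ω ∈ Submodule.span ℂ (Set.range (sym i).form)
  /-- the contractions of the first Chern class vanish (the line bundle `K` is invariant) -/
  chern : ∀ i k, (contr (sym i) k).app (T.X i).c = 0
  /-- the contraction with the fundamental class of `A i` (it is the pull-back by the action
  `A i × X i → X i` followed by the push-forward to `X i`) -/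
  orbit : ∀ i, T.A i i (orbitMap (sym i))
  /-- the multiplication with the class dual to the fundamental class of `A i` (a rational multiple of
  the class of a fibre of a homomorphism from the Albanese variety to an abelian variety isogenous to
  `A i`) -/
  fibre : ∀ i, T.A i i (mult (fibreClass (sym i)))
  /-- the multiplication with the class `f 1`, the push-forward of a correspondence `f` -/
  mul : ∀ i j f, T.A i j f → T.A j j (mult (f.app 1))
  /-- the composition of the pull-back by the action, of the Künneth projection to
  `H¹(A i) ⊗ H(X i) = ⟨θ, θ̅⟩ ⊗ H(X i)`, of the correspondence `b ⊗ f`, and of the cup product -/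
  act : ∀ i j b f, T.A i j b → T.A i j f → ∃ g, T.A i j g ∧ IsActionProduct (sym i) b f g

/-- The cohomological shape of an equivalence of `D(X i)` and `D(X j)`: an isometry `φ` for the Mukai
pairings given by a correspondence, with inverse `ψ`, compatible with Rouquier's isomorphism
`Aut⁰(X i) × Pic⁰(X i) ≅ Aut⁰(X j) × Pic⁰(X j)`, that is, `z ↦ φ z φ⁻¹` maps the operators given by the
Lie algebra of the one group to those given by the Lie algebra of the other one. -/
def Action.DerivedEquivalent {T : Correspondences n ι} {a : ℕ} (C : Action T a) (i j : ι) : Prop :=
  ∃ φ ψ, T.A i j φ ∧ T.A j i ψ ∧ ψ.comp φ = Hom.one (T.X i) ∧ φ.comp ψ = Hom.one (T.X j) ∧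
    φ.IsIsometry ∧
    (∀ z, FromLieAlgebra (C.sym i) z → FromLieAlgebra (C.sym j) ((φ.comp z).comp ψ)) ∧
    (∀ z, FromLieAlgebra (C.sym j) z → FromLieAlgebra (C.sym i) ((ψ.comp z).comp φ))

/-! ### Comparison with the notation of the proof -/

theorem compose_eq {X : KRing n} (l : List (Hom X X)) :
    compose l = (show Hom X X from List.prod (α := Module.End ℂ X.R) l) := by
  induction l with
  | nil => rfl
  | cons f l ih =>
    have e : compose (f :: l) = f.comp (compose l) := rfl
    rw [e, ih]
    exact (List.prod_cons (α := Module.End ℂ X.R)).symm

theorem from_iff {a : ℕ} {X : KRing n} (S : AbelianSymmetry X a) (z : X.R →ₗ[ℂ] X.R) :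
    FromLieAlgebra S z ↔ Pool.Agent.Helper86.Orl.InV S z := by
  constructor
  · rintro ⟨c, β, hβ, h⟩
    refine ⟨c, β, hβ, LinearMap.ext fun x => ?_⟩
    rw [LinearMap.add_apply, LinearMap.mulLeft_apply, Pool.Agent.Helper86.Orl.ic_apply]
    exact h x
  · rintro ⟨c, β, hβ, h⟩
    refine ⟨c, β, hβ, fun x => ?_⟩
    have h' := LinearMap.congr_fun h x
    rw [LinearMap.add_apply, LinearMap.mulLeft_apply, Pool.Agent.Helper86.Orl.ic_apply] at h'
    exact h'

theorem orbit_eq {a : ℕ} {X : KRing n} (S : AbelianSymmetry X a) :
    orbitMap S = (show Hom X X from
        (Complex.I ^ a) • ((List.ofFn fun k => (S.contr k : Module.End ℂ X.R)).prod *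
      (List.ofFn fun k => (conjMap X (S.contr k) : Module.End ℂ X.R)).prod)) := by
  unfold orbitMap
  rw [compose_eq, compose_eq]
  rfl

theorem fibre_eq {a : ℕ} {X : KRing n} (S : AbelianSymmetry X a) :
    Pool.Agent.Helper86.Orl.MM S = LinearMap.mulLeft ℂ (fibreClass S) :=
  Pool.Agent.Helper86.Orl.MM_eq S

theorem step_eq {a : ℕ} {X Y : KRing n} (S : AbelianSymmetry X a) (b f g : X.R →ₗ[ℂ] Y.R)
    (h : IsActionProduct S b f g) : g = Pool.Agent.Helper86.Orl.stepE S b f := by
  refine LinearMap.ext fun x => ?_
  rw [Pool.Agent.Helper86.Orl.stepE, LinearMap.sum_apply]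
  exact h x

/-- the same structure in the notation of the proof -/
noncomputable def Action.act' {m a : ℕ} {T : Correspondences (m + a) ι} (C : Action T a) :
    Pool.Agent.Helper86.Orl.Act (a := a) (m := m) T.theory where
  S := C.sym
  adapted := C.adapted
  chern := C.chern
  orbit i := by
    have h := C.orbit i
    rw [orbit_eq] at h
    exact h
  fibre i := (fibre_eq (C.sym i)).symm ▸ C.fibre i
  mul := C.mul
  act i j b hb f hf := by
    obtain ⟨g, hg, h⟩ := C.act i j b f hb hf
    exact (step_eq (C.sym i) b f g h) ▸ hg

theorem dim_le {a : ℕ} {T : Correspondences n ι} (C : Action T a) (i : ι) : a ≤ n := by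
  by_contra h
  have h1 := Pool.Agent.Helper86.Orl.vol_mem (C.sym i)
  have h2 : Pool.Agent.Helper86.Orl.vol (C.sym i) = 0 :=
    Pool.Agent.Helper86.Orl.zero_of_type h1 (by omega)
  have h3 := Pool.Agent.Helper86.Orl.vol_inj (C.sym i)
    (Pool.Agent.Helper86.Orl.one_mem_PP (C.sym i)) (by rw [h2, zero_mul])
  exact one_ne _ h3

theorem Action.DerivedEquivalent.equiv {m a : ℕ} {T : Correspondences (m + a) ι} {C : Action T a}
    {i j : ι} (h : C.DerivedEquivalent i j) : (C.act').Equiv i j := by
  obtain ⟨φ, ψ, h1, h2, h3, h4, h5, h6, h7⟩ := h
  refine ⟨φ, h1, ψ, h2, h3, h4, h5, fun z hz => ?_, fun z hz => ?_⟩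
  · have := h6 z ((from_iff _ _).mpr hz)
    exact (from_iff _ _).mp this
  · have := h7 z ((from_iff _ _).mpr hz)
    exact (from_iff _ _).mp this

/-- **Orlov's conjecture for varieties with an action of an abelian variety.** Let `T` be a class of
correspondences between varieties `X i` of dimension `n` on which abelian varieties of dimension `a`
act, and let `X i` and `X j` be derived equivalent. If `n ≤ a + 4`, or if the motives of `X i` and
`X j` are isomorphic in the degrees `2 ≤ d ≤ n - a - 3`, then their motives are isomorphic, degree by
degree. In this case also the objects of any lift (for example the Chow motives, if their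
homologically trivial endomorphisms are nilpotent) are isomorphic. -/
theorem result {n a : ℕ} {ι : Type} {T : Correspondences n ι} (C : Action T a) {i j : ι}
    (h : C.DerivedEquivalent i j)
    (hl : n ≤ a + 4 ∨ ∀ d : ℤ, 2 ≤ d → d ≤ n - a - 3 → T.Iso i j {d}) :
    T.IsoMotives i j ∧
      ∀ {K : Type*} [Category K] [Preadditive K] (L : T.Lift K), Nonempty (L.h i ≅ L.h j) := by
  have key : T.theory.IsoMotives i j := by
    obtain ⟨m, rfl⟩ := Nat.exists_eq_add_of_le' (dim_le C i)
    refine h.equiv.isoMotives_low fun d h2 h3 => ?_
    rcases hl with hl | hl
    · omega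
    · exact Correspondences.iso_iff.mp (hl d h2 (by push_cast; omega))
  exact ⟨Correspondences.isoMotives_of key, fun L => L.theory.iso key⟩

end Pool.Agent.Results.MP_5c0b30_ag.AbelianSymmetry
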