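import Mathlib
import Pool.Agent.Helper75.OC.Rank

/-!
# Orlov's conjecture: the ranks of the groups of cycles of low codimension decide

`MP_5c0b30_ag`, Q1, for pure motives with a semisimple rigid category (André's motivated motives
in characteristic zero; numerical motives where the standard conjectures `B`, `C` hold; also
polarizable Hodge structures). `rk X j` is the rank of the group of the cycles of codimension `j`
in this sense (motivated cycles, cycles modulo numerical equivalence, Hodge classes).
-/

set_option autoImplicit false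

open Finset Polynomial

namespace Pool.Agent.Results.MP_5c0b30_ag.LowDegreesDecide

/-- Smooth projective varieties over a field, derived equivalence, and the Grothendieck ring `R`
of a semisimple rigid tensor category of pure motives in which every `h(X)` is the sum of its
pieces `h^i(X)`.  The fields after `tau` are known facts. -/
structure Theory where
  /-- smooth projective varieties -/
  V : Type
  /-- the Grothendieck ring of the category of motives -/
  R : Type
  [ring : CommRing R]
  /-- dimension -/
  dim : V → ℕ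
  /-- `mot X = ∑ [h^i(X)] t^i`, the graded class of the motive of `X` -/
  mot : V → R[X]
  /-- `D^b(X)` and `D^b(Y)` are equivalent -/
  DerivedEquivalent : V → V → Prop
  /-- product of varieties -/
  prod : V → V → V
  /-- projective space -/
  proj : ℕ → V
  /-- the class of the Lefschetz motive -/
  L : R
  /-- the class of the Tate motive, the inverse of the Lefschetz motive -/
  Linv : R
  /-- the class of the dual motive -/
  dual : R →+* R
  /-- `tau [M] = dim Hom(1, M)` -/
  tau : R →+ ℤ
  dim_prod : ∀ X Y, dim (prod X Y) = dim X + dim Y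
  dim_proj : ∀ a, dim (proj a) = a
  /-- Künneth formula -/
  mot_prod : ∀ X Y, mot (prod X Y) = mot X * mot Y
  mot_proj : ∀ a, mot (proj a) = ∑ j ∈ range (a + 1), C (L ^ j) * Polynomial.X ^ (2 * j)
  /-- `h^i(X) = 0` for `i > 2 dim X` -/
  mot_bounded : ∀ X i, 2 * dim X < i → (mot X).coeff i = 0
  /-- hard Lefschetz: `h^{2n-i}(X) = h^i(X)(i-n)` -/
  lefschetz : ∀ X i, i ≤ dim X →
    (mot X).coeff (2 * dim X - i) = L ^ (dim X - i) * (mot X).coeff i
  /-- Poincaré duality: `h^{2n-i}(X)` is the dual of `h^i(X)` twisted by `-n` -/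
  poincare : ∀ X i, i ≤ 2 * dim X →
    (mot X).coeff (2 * dim X - i) = L ^ dim X * dual ((mot X).coeff i)
  L_mul_Linv : L * Linv = 1
  /-- semisimplicity: `tau (x * dual x) = ∑ m_S ^ 2 dim End S` for `x = ∑ m_S [S]` -/
  tau_pos : ∀ x, x ≠ 0 → 0 < tau (x * dual x)
  /-- derived equivalent varieties have the same dimension -/
  dim_eq : ∀ X Y, DerivedEquivalent X Y → dim X = dim Y
  /-- a derived equivalence extends to products -/
  equiv_prod : ∀ X Y Z, DerivedEquivalent X Y → DerivedEquivalent (prod X Z) (prod Y Z)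
  /-- Orlov's theorem: the total rank `∑ rk X j` of the cycles is a derived invariant -/
  orlov : ∀ X Y, DerivedEquivalent X Y →
    ∑ j ∈ range (dim X + 1), tau (Linv ^ j * (mot X).coeff (2 * j)) =
      ∑ j ∈ range (dim Y + 1), tau (Linv ^ j * (mot Y).coeff (2 * j))

attribute [instance] Theory.ring

variable (T : Theory)

/-- In dimension at most `n` derived equivalent varieties have isomorphic motives, in each
degree. -/
def Theory.SameMotives (n : ℕ) : Prop :=
  ∀ X Y : T.V, T.DerivedEquivalent X Y → T.dim X ≤ n → T.mot X = T.mot Y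

/-- The rank of the group of cycles of codimension `j`: `dim Hom(1, h^{2j}(X)(j))`. -/
noncomputable def Theory.rk (X : T.V) (j : ℕ) : ℤ := T.tau (T.Linv ^ j * (T.mot X).coeff (2 * j))

/-- The combination `∑ c_j rk X j`, `j ≤ d`. -/
noncomputable def Theory.combination (d : ℕ) (c : ℕ → ℤ) (X : T.V) : ℤ :=
  ∑ j ∈ range (d + 1), c j * T.rk X j

/-- The combination with coefficients `c` is a derived invariant in dimension `d`. -/
def Theory.Invariant (d : ℕ) (c : ℕ → ℤ) : Prop :=
  ∀ X Y : T.V, T.DerivedEquivalent X Y → T.dim X = d → T.combination d c X = T.combination d c Y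

/-- The coefficients `c_j + c_{d-j}` of the symmetrised combination are equal (to some `m`) near
the ends, for `j < 2n` and `j > d - 2n`, but not for all `j`. -/
def Admissible (n d : ℕ) (c : ℕ → ℤ) : Prop :=
  ∃ m : ℤ, (∀ j ≤ d, j < 2 * n ∨ d < j + 2 * n → c j + c (d - j) = m) ∧
    ∃ j ≤ d, c j + c (d - j) ≠ m

/-- The coefficients of the codimensions `0, 1, …, 2n - 1`, all equal to one. -/
def low (n : ℕ) : ℕ → ℤ := fun j => if j < 2 * n then 1 else 0

open Pool.Agent.Helper75.OC

theorem mot_proj' (a : ℕ) : T.mot (T.proj a) = geo T.L (a + 1) := by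
  rw [T.mot_proj]
  unfold geo
  refine sum_congr rfl fun j _ => ?_
  rw [mul_pow, C_pow, pow_mul]

theorem comb_eq (d : ℕ) (c : ℕ → ℤ) (X : T.V) :
    T.combination d c X = T.tau (T.Linv ^ d * form T.L d c (T.mot X)) := by
  unfold Theory.combination form
  rw [mul_sum, map_sum]
  refine sum_congr rfl fun j hj => ?_
  have hj' := mem_range.1 hj
  rw [mul_smul_comm, map_zsmul, pow_cancel T.L T.Linv T.L_mul_Linv d j (by omega), smul_eq_mul]
  rfl

/-- the ranks agree -/
theorem rank_agree (e d : ℕ) (c : ℕ → ℤ) (he : e + e ≤ d)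
    (hbox : ∀ j, c j ≠ 0 → e ≤ j ∧ j + e ≤ d) (hc : ∃ j ≤ d, c j + c (d - j) ≠ 0)
    (hinv : T.Invariant d c) (U W : T.V) (hUW : T.DerivedEquivalent U W) (hU : T.dim U = e) :
    ∀ r ≤ e, T.tau (T.Linv ^ r * (T.mot U - T.mot W).coeff (2 * r)) = 0 := by
  have hW : T.dim W = e := by rw [← T.dim_eq U W hUW, hU]
  refine even_rank T.L T.Linv T.L_mul_Linv T.tau e d he c hbox hc (T.mot U - T.mot W) ?_ ?_ ?_
  · intro i hi
    rw [coeff_sub, T.mot_bounded U i (by omega), T.mot_bounded W i (by omega), sub_zero]
  · intro i hi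
    have h1 := T.lefschetz U i (by omega)
    have h2 := T.lefschetz W i (by omega)
    rw [hU] at h1
    rw [hW] at h2
    rw [coeff_sub, coeff_sub, h1, h2, mul_sub]
  · intro a b hab
    have h1 : T.DerivedEquivalent (T.prod (T.prod U (T.proj a)) (T.proj b))
        (T.prod (T.prod W (T.proj a)) (T.proj b)) :=
      T.equiv_prod _ _ _ (T.equiv_prod _ _ _ hUW)
    have h2 := hinv _ _ h1 (by
      rw [T.dim_prod, T.dim_prod, T.dim_proj, T.dim_proj, hU]
      omega)
    have h3 : ∀ Z : T.V, T.combination d c (T.prod (T.prod Z (T.proj a)) (T.proj b)) =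
        T.tau (T.Linv ^ d * form T.L d c (T.mot Z * (geo T.L (a + 1) * geo T.L (b + 1)))) := by
      intro Z
      rw [comb_eq, ← mot_proj', ← mot_proj', ← mul_assoc, ← T.mot_prod, ← T.mot_prod]
    rw [h3, h3] at h2
    rw [sub_mul, form_sub, mul_sub, map_sub, h2, sub_self]

theorem box_suffices (n d : ℕ) (c : ℕ → ℤ) (hbox : ∀ j, c j ≠ 0 → 2 * n ≤ j ∧ j + 2 * n ≤ d)
    (hnt : ∃ j ≤ d, c j + c (d - j) ≠ 0) (hinv : T.Invariant d c) : T.SameMotives n := by
  intro X Y hXY hn
  have h4 : 4 * n ≤ d := by
    obtain ⟨j, hj, hjc⟩ := hnt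
    by_cases h : c j = 0
    · have h1 : c (d - j) ≠ 0 := by
        intro h2
        exact hjc (by rw [h, h2]; rfl)
      have := hbox _ h1
      omega
    · have := hbox _ h
      omega
  have hY : T.dim Y = T.dim X := (T.dim_eq X Y hXY).symm
  have e2 := rank_agree T (T.dim X + T.dim X) d c (by omega)
    (fun j hj => by have := hbox j hj; omega) hnt hinv (T.prod X X) (T.prod Y X)
    (T.equiv_prod _ _ _ hXY) (T.dim_prod _ _) (T.dim X) (by omega)
  have e3 := rank_agree T (T.dim X + T.dim X) d c (by omega)
    (fun j hj => by have := hbox j hj; omega) hnt hinv (T.prod X Y) (T.prod Y Y)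
    (T.equiv_prod _ _ _ hXY) (by rw [T.dim_prod, hY]) (T.dim X) (by omega)
  have h5 : (T.mot X - T.mot Y) * (T.mot X - T.mot Y) =
      (T.mot (T.prod X X) - T.mot (T.prod Y X)) - (T.mot (T.prod X Y) - T.mot (T.prod Y Y)) := by
    simp only [T.mot_prod]
    ring
  refine sub_eq_zero.1 (zero_of_middle T.L T.Linv T.L_mul_Linv T.dual T.tau T.tau_pos (T.dim X)
    (T.mot X - T.mot Y) ?_ ?_ ?_)
  · intro i hi
    rw [coeff_sub, T.mot_bounded X i (by omega), T.mot_bounded Y i (by omega), sub_zero]
  · intro i hi
    have h1 := T.poincare X i (by omega)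
    have h2 := T.poincare Y i (by omega)
    rw [hY] at h2
    rw [coeff_sub, coeff_sub, h1, h2, map_sub, mul_sub]
  · rw [h5, coeff_sub, mul_sub, map_sub, e2, e3, sub_zero]

theorem rk_symm (X : T.V) (j : ℕ) (hj : j ≤ T.dim X) : T.rk X (T.dim X - j) = T.rk X j := by
  have key : ∀ i, 2 * i ≤ T.dim X → T.rk X (T.dim X - i) = T.rk X i := by
    intro i hi
    unfold Theory.rk
    have h1 := T.lefschetz X (2 * i) hi
    have e : 2 * (T.dim X - i) = 2 * T.dim X - 2 * i := by omega
    have e2 : T.dim X - 2 * i = (T.dim X - i) - i := by omega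
    rw [e, h1, e2, pow_cancel T.L T.Linv T.L_mul_Linv (T.dim X - i) i (by omega)]
  rcases Nat.lt_or_ge (T.dim X) (2 * j) with h | h
  · have h1 := key (T.dim X - j) (by omega)
    have e : T.dim X - (T.dim X - j) = j := by omega
    rw [e] at h1
    exact h1.symm
  · exact key j h

/-- The symmetrised combination minus `m` times the total rank. -/
theorem symm_sum (d : ℕ) (c : ℕ → ℤ) (m : ℤ) (X : T.V) (hX : T.dim X = d) :
    T.combination d (fun j => if j ≤ d then c j + c (d - j) - m else 0) X =
      2 * T.combination d c X - m * ∑ j ∈ range (d + 1), T.rk X j := by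
  have h1 : T.combination d c X = ∑ j ∈ range (d + 1), c (d - j) * T.rk X j := by
    unfold Theory.combination
    rw [← sum_range_reflect]
    refine sum_congr rfl fun j hj => ?_
    have hj' := mem_range.1 hj
    have e : d + 1 - 1 - j = d - j := by omega
    have h2 := rk_symm T X j (by omega)
    rw [hX] at h2
    rw [e, h2]
  have h2 : 2 * T.combination d c X = T.combination d c X + T.combination d c X := by ring
  rw [h2]
  conv_rhs => arg 1; arg 2; rw [h1]
  unfold Theory.combination
  rw [← sum_add_distrib, mul_sum, ← sum_sub_distrib]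
  refine sum_congr rfl fun j hj => ?_
  have hj' := mem_range.1 hj
  simp only [if_pos (show j ≤ d by omega)]
  ring

/-- (1) -/
theorem admissible_suffices (n d : ℕ) (c : ℕ → ℤ) (hc : Admissible n d c)
    (hinv : T.Invariant d c) : T.SameMotives n := by
  obtain ⟨m, hm, j₀, hj₀, hne⟩ := hc
  refine box_suffices T n d (fun j => if j ≤ d then c j + c (d - j) - m else 0) ?_
    ⟨j₀, hj₀, ?_⟩ ?_
  · intro j hj
    by_cases h : j ≤ d
    · simp only [if_pos h] at hj
      by_contra h2
      exact hj (by rw [hm j h (by omega), sub_self])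
    · exact absurd (if_neg h) hj
  · have e : d - (d - j₀) = j₀ := by omega
    simp only [if_pos hj₀, if_pos (show d - j₀ ≤ d by omega), e]
    intro h
    apply hne
    linarith
  · intro X Y hXY hX
    have hY : T.dim Y = d := by rw [← T.dim_eq X Y hXY, hX]
    have h1 := T.orlov X Y hXY
    rw [hX, hY] at h1
    rw [symm_sum T d c m X hX, symm_sum T d c m Y hY, hinv X Y hXY hX]
    unfold Theory.rk
    rw [h1]

theorem low_admissible (n d : ℕ) (hd : 4 * n ≤ d) : Admissible n d (low n) := by
  refine ⟨1, fun j hj h => ?_, 2 * n, by omega, ?_⟩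
  · unfold low
    rcases h with h | h
    · rw [if_pos h, if_neg (by omega)]
      rfl
    · rw [if_neg (by omega), if_pos (by omega)]
      rfl
  · unfold low
    rw [if_neg (by omega), if_neg (by omega)]
    norm_num

/-- **Main theorem.**
(1) Let `c` be coefficients such that `c_j + c_{d-j}` is the same number `m` for all `j < 2n`, but
not for all `j ≤ d`. If `∑ c_j rk X j` is a derived invariant in this one dimension `d`, then in
dimensions at most `n` the motives `h^i`, for all `i`, are derived invariants.
(2) This is so for the sum `rk X 0 + … + rk X (2n-1)` of the low ranks, `d ≥ 4n`.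
(3) So the following are equivalent: derived equivalent varieties have isomorphic motives; for
every `n` some combination as in (1) is invariant; for every `n` the sum of the low ranks as in
(2) is, for some `d ≥ 4n`. -/
theorem result (T : Theory) :
    (∀ n d c, Admissible n d c → T.Invariant d c → T.SameMotives n) ∧
    (∀ n d, 4 * n ≤ d → T.Invariant d (low n) → T.SameMotives n) ∧
    [∀ X Y : T.V, T.DerivedEquivalent X Y → T.mot X = T.mot Y,
      ∀ n, ∃ d c, Admissible n d c ∧ T.Invariant d c,
      ∀ n, ∃ d, 4 * n ≤ d ∧ T.Invariant d (low n)].TFAE := by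
  refine ⟨admissible_suffices T,
    fun n d hd h => admissible_suffices T n d _ (low_admissible n d hd) h, ?_⟩
  have all : (∀ n, T.SameMotives n) → ∀ X Y : T.V, T.DerivedEquivalent X Y → T.mot X = T.mot Y :=
    fun h X Y hXY => h _ X Y hXY le_rfl
  tfae_have 1 → 3 := fun h n =>
    ⟨4 * n, le_rfl, fun X Y hXY _ => by
      unfold Theory.combination Theory.rk
      rw [h X Y hXY]⟩
  tfae_have 3 → 2 := fun h n => by
    obtain ⟨d, h1, h2⟩ := h n
    exact ⟨d, low n, low_admissible n d h1, h2⟩
  tfae_have 2 → 1 := fun h => all fun n => by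
    obtain ⟨d, c, h1, h2⟩ := h n
    exact admissible_suffices T n d c h1 h2
  tfae_finish

end Pool.Agent.Results.MP_5c0b30_ag.LowDegreesDecide
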