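import Pool.Agent.Helper13.MR.Geo

/-!
# Orlov's conjecture and the ranks of the groups of algebraic cycles

`V` is the commutative monoid (product of varieties) of the isomorphism classes of smooth projective
varieties over a field `k`, `D.dim X` the dimension, `D.deq X Y` derived equivalence, `D.chow X` the Chow
motive `h(X)` with rational coefficients, an object of the category `C` of Chow motives, `D.Q : C ⥤ N` the
functor to the motives modulo numerical equivalence, `D.cyc X i` the rank of the group `N^i(X)` of algebraic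
cycles of codimension `i` modulo numerical equivalence, `D.b X` the sum of the Betti numbers. `IsMotives`
lists known properties: `N` is semisimple with finite-dimensional spaces of morphisms (Jannsen's theorem,
`IsSemisimple`), `Q` is additive and full, `Hom(h(X), h(Y)) = N^d(X × Y)` if `X` and `Y` have dimension `d`,
`Hom(L^i, h(W)) = N^i(W)`, `rank N^i(W) = rank N^(dim W - i)(W)`, `N^i(W) = 0` for `i < 0`; the motives of
the projective line `line` and of the plane `blow n` blown up in `n` points; derived equivalence is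
symmetric, keeps the dimension, and `X × Z`, `Y × Z` are derived equivalent if `X`, `Y` are (Orlov).

`NumIso D X Y`: `X` and `Y` have isomorphic motives modulo numerical equivalence. `NilKernel D.Q (h X)`:
numerically trivial endomorphisms of `h(X)` are nilpotent; by Kimura this holds if `h(X)` is
finite-dimensional, e.g. if `h(X)` is in the tensor category generated by the motives of curves.

**Theorem.** (1) Let `X` and `Y` have dimension `d`. Then
`2 rank N^d(X × Y) ≤ rank N^d(X × X) + rank N^d(Y × Y)`, with equality if and only if `X` and `Y` have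
isomorphic motives modulo numerical equivalence; if numerically trivial endomorphisms of `h(X)` and `h(Y)`
are nilpotent then equality holds if and only if `h(X) ≃ h(Y)` as Chow motives.

(2) Let `𝒞` be a class of varieties which contains the products of its members, and their products with the
projective line and with the planes blown up in points (for instance all varieties, or all varieties whose
Chow motives are finite-dimensional). Derived equivalent `X, Y ∈ 𝒞` of dimension at most `d` have isomorphic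
motives modulo numerical equivalence

* if the middle rank `rank N^d(W)` is a derived invariant for the `W ∈ 𝒞` of dimension `2d`, or if
  `rank N^(d+1)(W)` is a derived invariant up to `o(b(W))` for the `W ∈ 𝒞` of dimension `2d+2`;
* if for some `n` and some `c : ℤ →₀ ℤ` with `c_x + c_(n-x)` not identically zero the linear combination
  `∑ c_x rank N^x(W)`, with codimensions `2d ≤ x ≤ n - 2d`, is a derived invariant for the `W ∈ 𝒞` of
  dimension `n` (or, with `2d + 1 ≤ x ≤ n - 2d - 1`, a derived invariant up to `o(b(W))`). (`w = 2d`; such a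
  combination also shows that all ranks are derived invariants in dimension at most `w`.)

(3) For such a class the following are equivalent: (a) derived equivalent varieties have isomorphic motives
modulo numerical equivalence (this is Q1 modulo numerical equivalence); (b) the ranks of all `N^i` are
derived invariants; (c) the middle ranks are derived invariants; (d) for arbitrarily large `m` the middle
rank is a derived invariant up to `o(b)` in dimension `2m`; (e) `rank N^d(X × X) ≤ rank N^d(X × Y)` for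
derived equivalent `X`, `Y` of dimension `d`; (f) for each `w` there are an `n` and a combination as in (2),
with codimensions `w ≤ x ≤ n - w`, which is a derived invariant up to `o(b)` in dimension `n`.

(4) If, moreover, numerically trivial endomorphisms of the `h(X)`, `X ∈ 𝒞`, are nilpotent, these conditions
are equivalent to Q1 for `𝒞`: `h(X) ≃ h(Y)` as Chow motives for derived equivalent `X, Y ∈ 𝒞`.

Proof. In a semisimple category `2 dim Hom(A, B) ≤ dim End A + dim End B` up to symmetrisation, with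
equality only if `A ≃ B`: split off a common summand of `A` and `B` until `Hom(A, B) = 0`. This is (1); the
isomorphism lifts to Chow motives because idempotent-type arguments work modulo a nil ideal. If `X` and `Y`
are derived equivalent so are `X × X`, `X × Y` and `Y × Y`, which gives (c) ⇒ (a). Products with the planes
blown up in `n` points, `n → ∞`, lead from `o(b)` to exact invariance in smaller dimension. For linear
combinations: products with the lines and planes show that the symmetrised combination annihilates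
all translates of the difference of the rank functions of `X` and `Y`, and the largest place of the
combination and the smallest place of the difference give a contradiction.
-/

set_option autoImplicit false

open CategoryTheory CategoryTheory.Limits Pool.Agent.Helper13.MR

namespace Pool.Agent.Results.MP_5c0b30_ag.MiddleRanks

universe v₁ u₁ v₂ u₂

/-- **Ranks of groups of cycles decide Orlov's conjecture.** See the explanations above. -/
theorem result {V : Type} [CommMonoid V] {C : Type u₁} [Category.{v₁} C] [Preadditive C]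
    {N : Type u₂} [Category.{v₂} N] [Preadditive N] [Linear ℚ N] [HasBinaryBiproducts N]
    {D : MotiveData V C N} {line : V} {blow : ℕ → V} (h : IsMotives D line blow) :
    -- (1)
    (∀ X Y, D.dim X = D.dim Y →
      2 * D.cyc (X * Y) (D.dim X) ≤ D.cyc (X * X) (D.dim X) + D.cyc (Y * Y) (D.dim Y) ∧
      (2 * D.cyc (X * Y) (D.dim X) = D.cyc (X * X) (D.dim X) + D.cyc (Y * Y) (D.dim Y) ↔
        NumIso D X Y)) ∧
    (∀ X Y, NilKernel D.Q (D.chow X) → NilKernel D.Q (D.chow Y) → D.dim X = D.dim Y →
      (2 * D.cyc (X * Y) (D.dim X) = D.cyc (X * X) (D.dim X) + D.cyc (Y * Y) (D.dim Y) ↔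
        Nonempty (D.chow X ≅ D.chow Y))) ∧
    (∀ 𝒞 : Set V, (∀ X ∈ 𝒞, ∀ Y ∈ 𝒞, X * Y ∈ 𝒞) → (∀ X ∈ 𝒞, X * line ∈ 𝒞) →
      (∀ X ∈ 𝒞, ∀ n, X * blow n ∈ 𝒞) →
      -- (2)
      (∀ d : ℕ, MiddleRank D 𝒞 d ∨ MiddleRankApprox D 𝒞 (d + 1) →
        ∀ X ∈ 𝒞, ∀ Y ∈ 𝒞, D.deq X Y → D.dim X ≤ d → NumIso D X Y) ∧
      (∀ (w n : ℕ) (c : ℤ →₀ ℤ), (∃ x, c x + c (n - x) ≠ 0) →
        (InBox w n c ∧ CombInvar D 𝒞 n c ∨ InBox (w + 1 : ℕ) n c ∧ CombApprox D 𝒞 n c) →
        ∀ X ∈ 𝒞, ∀ Y ∈ 𝒞, D.deq X Y →
          (D.dim X ≤ w → ∀ i, D.cyc X i = D.cyc Y i) ∧ (2 * D.dim X ≤ w → NumIso D X Y)) ∧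
      -- (3)
      [∀ X ∈ 𝒞, ∀ Y ∈ 𝒞, D.deq X Y → NumIso D X Y,
        AllRanks D 𝒞,
        ∀ m, MiddleRank D 𝒞 m,
        ∀ m₀, ∃ m, m₀ ≤ m ∧ MiddleRankApprox D 𝒞 m,
        ∀ X ∈ 𝒞, ∀ Y ∈ 𝒞, D.deq X Y →
          D.cyc (X * X) (D.dim X) ≤ D.cyc (X * Y) (D.dim X),
        ∀ w : ℕ, ∃ (n : ℕ) (c : ℤ →₀ ℤ), (∃ x, c x + c (n - x) ≠ 0) ∧ InBox w n c ∧
          CombApprox D 𝒞 n c].TFAE ∧
      -- (4)
      ((∀ X ∈ 𝒞, NilKernel D.Q (D.chow X)) →
        ((∀ X ∈ 𝒞, ∀ Y ∈ 𝒞, D.deq X Y → Nonempty (D.chow X ≅ D.chow Y)) ↔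
          ∀ m, MiddleRank D 𝒞 m))) := by
  have hadd := h.additive
  have hfull := h.full
  have lift : ∀ X Y, NilKernel D.Q (D.chow X) → NilKernel D.Q (D.chow Y) → NumIso D X Y →
      Nonempty (D.chow X ≅ D.chow Y) := fun X Y hX hY e => by
    obtain ⟨e⟩ := e
    exact lift_iso D.Q hX hY e
  have push : ∀ X Y, Nonempty (D.chow X ≅ D.chow Y) → NumIso D X Y := by
    rintro X Y ⟨e⟩
    exact ⟨D.Q.mapIso e⟩
  refine ⟨fun X Y hd => middle h hd, fun X Y hX hY hd => ?_, ?_⟩
  · rw [(middle h hd).2]
    exact ⟨lift X Y hX hY, push X Y⟩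
  intro 𝒞 hm hl hb
  -- one dimension
  have hone : ∀ X ∈ 𝒞, ∀ Y ∈ 𝒞, D.deq X Y → MiddleRank D 𝒞 (D.dim X) → NumIso D X Y := by
    intro X hX Y hY hXY h1
    have e : D.dim X = D.dim Y := h.deq_dim X Y hXY
    refine num_of h hXY (cyc_of_middle h hm h1 hX hY hXY).le ?_
    rw [e] at h1
    exact (cyc_of_middle h hm h1 hY hX (h.deq_symm X Y hXY)).le
  have hdim : ∀ d : ℕ, MiddleRank D 𝒞 d ∨ MiddleRankApprox D 𝒞 (d + 1) →
      ∀ X ∈ 𝒞, ∀ Y ∈ 𝒞, D.deq X Y → D.dim X ≤ d → NumIso D X Y := by
    intro d ha X hX Y hY hXY hd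
    obtain ⟨t, ht⟩ : ∃ t, D.dim X + t = d := ⟨d - D.dim X, by omega⟩
    apply hone X hX Y hY hXY
    rcases ha with ha | ha
    · rcases Nat.eq_zero_or_pos t with h0 | h0
      · subst h0
        rw [add_zero] at ht
        rwa [ht]
      · obtain ⟨s, rfl⟩ : ∃ s, t = s + 1 := ⟨t - 1, by omega⟩
        exact down_all h hb s (by rw [add_assoc, ht]; exact approx_of_exact ha)
    · exact down_all h hb t (by rw [ht]; exact ha)
  have hcomb : ∀ (w n : ℕ) (c : ℤ →₀ ℤ), (∃ x, c x + c (n - x) ≠ 0) →
      (InBox w n c ∧ CombInvar D 𝒞 n c ∨ InBox (w + 1 : ℕ) n c ∧ CombApprox D 𝒞 n c) →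
      ∀ X ∈ 𝒞, ∀ Y ∈ 𝒞, D.deq X Y → D.dim X ≤ w → ∀ i, D.cyc X i = D.cyc Y i := by
    intro w n c nz hc
    rcases hc with ⟨box, hc⟩ | ⟨box, hc⟩
    · exact comb_exact h hl hb box nz hc
    · exact comb_approx h hl hb box nz hc
  refine ⟨hdim, fun w n c nz hc X hX Y hY hXY => ⟨hcomb w n c nz hc X hX Y hY hXY, fun hd => ?_⟩, ?_⟩
  · apply hone X hX Y hY hXY
    intro A hA B hB hAB hdA
    exact hcomb w n c nz hc A hA B hB hAB (by omega) _
  have tfae : [∀ X ∈ 𝒞, ∀ Y ∈ 𝒞, D.deq X Y → NumIso D X Y,
        AllRanks D 𝒞,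
        ∀ m, MiddleRank D 𝒞 m,
        ∀ m₀, ∃ m, m₀ ≤ m ∧ MiddleRankApprox D 𝒞 m,
        ∀ X ∈ 𝒞, ∀ Y ∈ 𝒞, D.deq X Y →
          D.cyc (X * X) (D.dim X) ≤ D.cyc (X * Y) (D.dim X),
        ∀ w : ℕ, ∃ (n : ℕ) (c : ℤ →₀ ℤ), (∃ x, c x + c (n - x) ≠ 0) ∧ InBox w n c ∧
          CombApprox D 𝒞 n c].TFAE := by
    tfae_have 1 → 2 := fun h1 X hX Y hY hXY i => all_of_iso h (h1 X hX Y hY hXY) i
    tfae_have 2 → 3 := fun h1 m X hX Y hY hXY _ => h1 X hX Y hY hXY m
    tfae_have 3 → 4 := fun h1 m₀ => ⟨m₀, le_rfl, approx_of_exact (h1 m₀)⟩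
    tfae_have 4 → 1 := by
      intro h1 X hX Y hY hXY
      obtain ⟨m, hm1, hm2⟩ := h1 (D.dim X + 1)
      obtain ⟨t, rfl⟩ : ∃ t, m = t + 1 := ⟨m - 1, by omega⟩
      exact hdim t (Or.inr hm2) X hX Y hY hXY (by omega)
    tfae_have 3 → 5 := fun h1 X hX Y hY hXY => (cyc_of_middle h hm (h1 _) hX hY hXY).le
    tfae_have 5 → 1 := fun h1 X hX Y hY hXY =>
      num_of h hXY (h1 X hX Y hY hXY) (h1 Y hY X hX (h.deq_symm X Y hXY))
    tfae_have 2 → 6 := by
      intro h1 w
      refine ⟨2 * w, Finsupp.single (w : ℤ) 1, ⟨w, ?_⟩, ?_, ?_⟩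
      · have e1 : ((2 * w : ℕ) : ℤ) - w = w := by push_cast; ring
        rw [e1, Finsupp.single_eq_same]
        norm_num
      · intro x hx
        rw [Finsupp.single_apply] at hx
        have hx' : (w : ℤ) = x := by
          by_contra h2
          exact hx (if_neg h2)
        push_cast
        omega
      · intro ε hε
        refine ⟨0, fun X hX Y hY hXY _ => ?_⟩
        have e1 : comb D (Finsupp.single (w : ℤ) 1) X = comb D (Finsupp.single (w : ℤ) 1) Y := by
          unfold comb
          exact Finsupp.sum_congr fun i _ => by rw [h1 X hX Y hY hXY i]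
        rw [e1, sub_self, Int.cast_zero, abs_zero]
        positivity
    tfae_have 6 → 2 := by
      intro h1 X hX Y hY hXY
      obtain ⟨n, c, nz, box, hc⟩ := h1 (D.dim X + 1)
      exact hcomb (D.dim X) n c nz (Or.inr ⟨box, hc⟩) X hX Y hY hXY le_rfl
    tfae_finish
  refine ⟨tfae, fun hnil => ?_⟩
  refine Iff.trans ?_ (tfae.out 0 2)
  exact ⟨fun h1 X hX Y hY hXY => push X Y (h1 X hX Y hY hXY),
    fun h1 X hX Y hY hXY => lift X Y (hnil X hX) (hnil Y hY) (h1 X hX Y hY hXY)⟩

end Pool.Agent.Results.MP_5c0b30_ag.MiddleRanks
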