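import Pool.Agent.Helper13.MR.Poly

/-!
# Orlov's conjecture: any nonconstant polynomial in interior ranks of cycle groups decides

As in `MiddleRanks` (same problem), `V` is the commutative monoid (product of varieties) of the isomorphism
classes of smooth projective varieties over a field `k`, `D.dim X` the dimension, `D.deq X Y` derived
equivalence, `D.chow X` the Chow motive `h(X)` with rational coefficients, `D.Q : C ⥤ N` the functor to the
motives modulo numerical equivalence, `D.cyc X i` the rank of the group `N^i(X)` of algebraic cycles of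
codimension `i` modulo numerical equivalence. `IsMotives` lists known properties (Jannsen's semisimplicity,
`Hom(h(X), h(Y)) = N^d(X × Y)`, duality, Orlov's theorem for products, ...). `NumIso D X Y`: the motives of
`X` and `Y` modulo numerical equivalence are isomorphic. `NilKernel D.Q (h X)`: numerically trivial
endomorphisms of `h(X)` are nilpotent (known by Kimura for his finite-dimensional motives).

Moreover `rank N^0 = 1`, and `TateTables` is a consequence of the formula for the motive of a blow-up: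
every table of integers `a_0 = 1, a_1, …, a_e` with `a_x = a_(e-x)` is congruent modulo `m` to the table
`t_0, …, t_e` of the multiplicities of the powers `L^x` in the motive of a variety `Z` of dimension `e`
whose motive is a sum of powers of the Lefschetz motive (`HasTate`; then
`rank N^i(W × Z) = ∑ rank N^j(W) t_(i-j)`). Indeed a projective space of dimension `e` blown up in `n_a`
disjoint linear subspaces of dimension `a`, `a + 1 ≤ e/2`, has the table of the polynomial
`1 + ⋯ + L^e + ∑ n_a (1 + ⋯ + L^a)(L + ⋯ + L^(e-a-1))`.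

By duality every rank is one of the numbers `rank N^x(W)` with `2x ≥ dim W = n`. Such a number is interior,
with margin `w`, if `w < x < n - w` (`Interior`). `InteriorPoly w n f`: `f` is a nonconstant polynomial with
integral coefficients in these numbers; `rankVal D f W` is its value.

**Theorem.** Let `f` be a nonconstant polynomial in the interior ranks, with margin `w`, of varieties of
dimension `n`.

(1) Let `X` and `Y` have the same dimension, at most `w`. If `f(X × Z) = f(Y × Z)` for all `Z` of dimension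
`n - dim X` whose motives are sums of powers of `L`, then `N^i(X)` and `N^i(Y)` have the same rank for all
`i`.

(2) Let `X` and `Y` have the same dimension, at most `w/2`. If `f` has the same value for `X × X × Z`,
`X × Y × Z` and `Y × Y × Z` for all such `Z` of dimension `n - 2 dim X`, then `X` and `Y` have isomorphic
motives modulo numerical equivalence, and isomorphic Chow motives if `h(X)` and `h(Y)` are
finite-dimensional (`NilKernel`).

(3) Let `𝒞` be a class of varieties which contains the products of its members and their products with the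
`Z` as above, and let `f` be a derived invariant of the varieties of dimension `n` in `𝒞`. Then for
derived equivalent `X, Y ∈ 𝒞` the ranks of `N^i(X)`, `N^i(Y)` are the same if `dim X ≤ w`, and the motives
modulo numerical equivalence are isomorphic if `2 dim X ≤ w`.

(4) For such a class Orlov's conjecture modulo numerical equivalence is true if and only if for each `w`
there are an `n` and a nonconstant polynomial in the interior ranks, with margin `w`, which is a derived
invariant of the varieties of dimension `n` in `𝒞`. If the `h(X)`, `X ∈ 𝒞`, are finite-dimensional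
(`NilKernel`), this is equivalent to Q1 for `𝒞`.

So if Q1 modulo numerical equivalence fails in dimension `d`, then for `w = 2d` and for all `n` only the
constant polynomials in the interior ranks are derived invariants of the varieties of dimension `n`.

Proof. As for Hodge numbers (`InteriorPolynomials`, MP_b4fe5e_ag), whose algebraic part (`poly_core`) is
applied to the diagonal tables of ranks, and, for the motives, the semisimplicity: in a semisimple category
`dim Hom(A, B) + dim Hom(B, A) = dim End A + dim End B` only if `A ≃ B`.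
-/

set_option autoImplicit false

open CategoryTheory CategoryTheory.Limits Pool.Agent.Helper13.MR

namespace Pool.Agent.Results.MP_5c0b30_ag.PolynomialsInRanks

universe v₁ u₁ v₂ u₂

/-- `f` is a derived invariant of the varieties of dimension `n` in the class `𝒞`. -/
def IsInvariant {V : Type} {C : Type u₁} [Category.{v₁} C] {N : Type u₂} [Category.{v₂} N]
    (D : MotiveData V C N) (𝒞 : Set V) (n : ℕ) (f : MvPolynomial ℤ ℤ) : Prop :=
  ∀ X ∈ 𝒞, ∀ Y ∈ 𝒞, D.deq X Y → D.dim X = n →
    MvPolynomial.eval (fun x => (D.cyc X x : ℤ)) f = MvPolynomial.eval (fun x => (D.cyc Y x : ℤ)) f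

/-- **Any nonconstant polynomial in interior ranks decides.** See the explanations above. -/
theorem result {V : Type} [CommMonoid V] {C : Type u₁} [Category.{v₁} C] [Preadditive C]
    {N : Type u₂} [Category.{v₂} N] [Preadditive N] [Linear ℚ N] [HasBinaryBiproducts N]
    {D : MotiveData V C N} {line : V} {blow : ℕ → V} (h : IsMotives D line blow)
    (h0 : ∀ X, D.cyc X 0 = 1) (tt : TateTables D) :
    (∀ (w n : ℕ) (f : MvPolynomial ℤ ℤ), InteriorPoly w n f →
      -- (1)
      (∀ X Y, D.dim X = D.dim Y → D.dim X ≤ w →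
        (∀ Z e t, HasTate D Z e t → D.dim X + e = n → rankVal D f (X * Z) = rankVal D f (Y * Z)) →
        ∀ i, D.cyc X i = D.cyc Y i) ∧
      -- (2)
      (∀ X Y, D.dim X = D.dim Y → 2 * D.dim X ≤ w →
        (∀ Z e t, HasTate D Z e t → 2 * D.dim X + e = n →
          rankVal D f (X * X * Z) = rankVal D f (X * Y * Z) ∧
          rankVal D f (X * Y * Z) = rankVal D f (Y * Y * Z)) →
        NumIso D X Y ∧ (NilKernel D.Q (D.chow X) → NilKernel D.Q (D.chow Y) →
          Nonempty (D.chow X ≅ D.chow Y)))) ∧
    (∀ 𝒞 : Set V, (∀ X ∈ 𝒞, ∀ Y ∈ 𝒞, X * Y ∈ 𝒞) →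
      (∀ X ∈ 𝒞, ∀ Z e t, HasTate D Z e t → X * Z ∈ 𝒞) →
      -- (3)
      (∀ (w n : ℕ) (f : MvPolynomial ℤ ℤ), InteriorPoly w n f → IsInvariant D 𝒞 n f →
        ∀ X ∈ 𝒞, ∀ Y ∈ 𝒞, D.deq X Y →
          (D.dim X ≤ w → ∀ i, D.cyc X i = D.cyc Y i) ∧ (2 * D.dim X ≤ w → NumIso D X Y)) ∧
      -- (4)
      ((∀ X ∈ 𝒞, ∀ Y ∈ 𝒞, D.deq X Y → NumIso D X Y) ↔
        ∀ w : ℕ, ∃ (n : ℕ) (f : MvPolynomial ℤ ℤ), InteriorPoly w n f ∧ IsInvariant D 𝒞 n f) ∧
      ((∀ X ∈ 𝒞, NilKernel D.Q (D.chow X)) →
        ((∀ X ∈ 𝒞, ∀ Y ∈ 𝒞, D.deq X Y → Nonempty (D.chow X ≅ D.chow Y)) ↔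
          ∀ w : ℕ, ∃ (n : ℕ) (f : MvPolynomial ℤ ℤ), InteriorPoly w n f ∧
            IsInvariant D 𝒞 n f))) := by
  have hadd := h.additive
  have hfull := h.full
  have lift : ∀ X Y, NilKernel D.Q (D.chow X) → NilKernel D.Q (D.chow Y) → NumIso D X Y →
      Nonempty (D.chow X ≅ D.chow Y) := fun X Y hX hY e => by
    obtain ⟨e⟩ := e
    exact lift_iso D.Q hX hY e
  have push : ∀ X Y, Nonempty (D.chow X ≅ D.chow Y) → NumIso D X Y := by
    rintro X Y ⟨e⟩
    exact ⟨D.Q.mapIso e⟩
  have one : ∀ (w n : ℕ) (f : MvPolynomial ℤ ℤ), InteriorPoly w n f →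
      ∀ X Y, D.dim X = D.dim Y → D.dim X ≤ w →
        (∀ Z e t, HasTate D Z e t → D.dim X + e = n → rankVal D f (X * Z) = rankVal D f (Y * Z)) →
        ∀ i, D.cyc X i = D.cyc Y i :=
    fun w n f hf X Y hd hw hZ => poly_ranks h h0 tt hd hw hf hZ
  have two : ∀ (w n : ℕ) (f : MvPolynomial ℤ ℤ), InteriorPoly w n f →
      ∀ X Y, D.dim X = D.dim Y → 2 * D.dim X ≤ w →
        (∀ Z e t, HasTate D Z e t → 2 * D.dim X + e = n →
          rankVal D f (X * X * Z) = rankVal D f (X * Y * Z) ∧
          rankVal D f (X * Y * Z) = rankVal D f (Y * Y * Z)) → NumIso D X Y := by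
    intro w n f hf X Y hd hw hZ
    have d1 : D.dim (X * X) = 2 * D.dim X := by rw [h.dim_mul]; ring
    have d2 : D.dim (X * Y) = 2 * D.dim X := by rw [h.dim_mul, ← hd]; ring
    have d3 : D.dim (Y * Y) = 2 * D.dim X := by rw [h.dim_mul, ← hd]; ring
    have e1 := one w n f hf (X * X) (X * Y) (by rw [d1, d2]) (by rw [d1]; exact hw)
      (fun Z e t ht he => (hZ Z e t ht (by rw [← d1]; exact he)).1) (D.dim X)
    have e2 := one w n f hf (X * Y) (Y * Y) (by rw [d2, d3]) (by rw [d2]; exact hw)
      (fun Z e t ht he => (hZ Z e t ht (by rw [← d2]; exact he)).2) (D.dim X)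
    refine (middle h hd).2.mp ?_
    rw [← hd]
    omega
  refine ⟨fun w n f hf => ⟨one w n f hf, fun X Y hd hw hZ => ?_⟩, fun 𝒞 hm ht => ?_⟩
  · have e := two w n f hf X Y hd hw hZ
    exact ⟨e, fun hX hY => lift X Y hX hY e⟩
  have three : ∀ (w n : ℕ) (f : MvPolynomial ℤ ℤ), InteriorPoly w n f → IsInvariant D 𝒞 n f →
        ∀ X ∈ 𝒞, ∀ Y ∈ 𝒞, D.deq X Y →
          (D.dim X ≤ w → ∀ i, D.cyc X i = D.cyc Y i) ∧ (2 * D.dim X ≤ w → NumIso D X Y) := by
    intro w n f hf hinv X hX Y hY hXY
    have hd := h.deq_dim X Y hXY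
    have hYX := h.deq_symm X Y hXY
    refine ⟨fun hw => one w n f hf X Y hd hw fun Z e t hZ he => ?_,
      fun hw => two w n f hf X Y hd hw fun Z e t hZ he => ⟨?_, ?_⟩⟩
    · exact hinv (X * Z) (ht X hX Z e t hZ) (Y * Z) (ht Y hY Z e t hZ) (h.deq_mul _ _ _ hXY)
        (by rw [h.dim_mul, hZ.1, he])
    · refine hinv (X * X * Z) (ht _ (hm X hX X hX) Z e t hZ) (X * Y * Z)
        (ht _ (hm X hX Y hY) Z e t hZ) ?_ (by rw [h.dim_mul, h.dim_mul, hZ.1]; omega)
      rw [mul_comm X Y]
      exact h.deq_mul _ _ _ (h.deq_mul _ _ _ hXY)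
    · refine hinv (X * Y * Z) (ht _ (hm X hX Y hY) Z e t hZ) (Y * Y * Z)
        (ht _ (hm Y hY Y hY) Z e t hZ) ?_ (by rw [h.dim_mul, h.dim_mul, hZ.1]; omega)
      exact h.deq_mul _ _ _ (h.deq_mul _ _ _ hXY)
  have four : (∀ X ∈ 𝒞, ∀ Y ∈ 𝒞, D.deq X Y → NumIso D X Y) ↔
        ∀ w : ℕ, ∃ (n : ℕ) (f : MvPolynomial ℤ ℤ), InteriorPoly w n f ∧ IsInvariant D 𝒞 n f := by
    refine ⟨fun h1 w => ?_, fun h1 X hX Y hY hXY => ?_⟩
    · refine ⟨2 * w + 2, MvPolynomial.X ((w : ℤ) + 1), ⟨fun x hx => ?_, fun z hz => ?_⟩, ?_⟩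
      · rw [MvPolynomial.vars_X, Finset.mem_singleton] at hx
        unfold Interior
        push_cast
        omega
      · have h2 := congrArg MvPolynomial.vars hz
        rw [MvPolynomial.vars_X, MvPolynomial.vars_C] at h2
        exact Finset.singleton_ne_empty _ h2
      · intro X hX Y hY hXY _
        rw [MvPolynomial.eval_X, MvPolynomial.eval_X, all_of_iso h (h1 X hX Y hY hXY)]
    · obtain ⟨n, f, hf, hinv⟩ := h1 (2 * D.dim X)
      exact (three _ n f hf hinv X hX Y hY hXY).2 le_rfl
  refine ⟨three, four, fun hnil => ?_⟩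
  rw [← four]
  exact ⟨fun h1 X hX Y hY hXY => push X Y (h1 X hX Y hY hXY),
    fun h1 X hX Y hY hXY => lift X Y (hnil X hX) (hnil Y hY) (h1 X hX Y hY hXY)⟩

end Pool.Agent.Results.MP_5c0b30_ag.PolynomialsInRanks
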